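import Pool.Agent.H31.MP.Basic

/-!
# MP_76b9e7_nt, board mtp_modules, row ML: Maynard's weights
-/

set_option autoImplicit false

open Finset Real ArithmeticFunction
open scoped Nat

namespace Pool.Agent.H57.MTP

open Pool.Agent.H31.MP
open Pool.Agent.H30.BV (NX wx WX)

theorem pf_ML (hCH : T_CH) (hPB : T_PB) (hQY : T_QY) (hLB : T_LB) (hGL : T_GL) (hGU : T_GU)
    (hMR : T_MR) : T_ML := by
  classical
  intro M ϑ hM hϑ hϑ1
  obtain ⟨c, _, hc, _, hMe⟩ := hMR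
  obtain ⟨CU, hCU, hGU'⟩ := hGU
  obtain ⟨K, θ, hK, hθ, hK'⟩ := hCH (2 * M / ϑ) c CU (by positivity) hc hCU
  refine ⟨K, min (θ * ϑ) 1, hK, lt_min (by positivity) one_pos, ?_⟩
  intro δ hδ hδ1
  have hδθ : δ ≤ θ * ϑ := hδ1.trans (min_le_left _ _)
  obtain ⟨C, hC, hLB'⟩ := hLB K δ hδ
  refine ⟨C, max 2 ((2 : ℝ) ^ (1 / δ)), hC, ?_⟩
  intro X hX
  have hX2 : 2 ≤ X := (le_max_left _ _).trans hX
  have hXp : 0 < X := by linarith
  have hX1 : 1 < X := by linarith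
  have hlogX : 0 < Real.log X := Real.log_pos hX1
  set z := X ^ δ with hz
  set Y := X ^ ϑ with hY
  have hz2 : 2 ≤ z := by
    have h1 : ((2 : ℝ) ^ (1 / δ)) ^ δ ≤ X ^ δ :=
      Real.rpow_le_rpow (by positivity) ((le_max_right _ _).trans hX) hδ.le
    rw [← Real.rpow_mul (by norm_num), one_div_mul_cancel hδ.ne', Real.rpow_one] at h1
    exact h1
  have hY1 : 1 < Y := Real.one_lt_rpow hX1 hϑ
  have hYX : Y ≤ X := by
    calc Y ≤ X ^ (1 : ℝ) := Real.rpow_le_rpow_of_exponent_le hX1.le hϑ1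
      _ = X := Real.rpow_one X
  have hlz : Real.log z = δ * Real.log X := Real.log_rpow hXp δ
  have hlY : Real.log Y = ϑ * Real.log X := Real.log_rpow hXp ϑ
  have hlzp : 0 < Real.log z := by rw [hlz]; positivity
  have hratio : Real.log Y / Real.log z = ϑ / δ := by
    rw [hlz, hlY]
    field_simp
  have hMez := hMe z hz2
  have hMepos : 0 < Me z := lt_of_lt_of_le (by positivity) hMez.1
  have hlow : ∀ U : ℝ, 1 ≤ U → U ≤ Y →
      c * Real.log U ≤ Real.log z * ∑ a ∈ RS z U, 1 / (a.totient : ℝ) := by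
    intro U hU _
    have h1 := hGL z U (by linarith) hU
    have h2 : Real.log U * Me z ≤ ∑ a ∈ RS z U, 1 / (a.totient : ℝ) := by
      have h3 := mul_le_mul_of_nonneg_right h1 hMepos.le
      rwa [mul_comm (Me z)⁻¹, mul_assoc, inv_mul_cancel₀ hMepos.ne', mul_one] at h3
    have h3 : c ≤ Me z * Real.log z := (div_le_iff₀ hlzp).1 hMez.1
    have h4 : 0 ≤ Real.log U := Real.log_nonneg hU
    calc c * Real.log U ≤ (Me z * Real.log z) * Real.log U := mul_le_mul_of_nonneg_right h3 h4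
      _ = Real.log z * (Real.log U * Me z) := by ring
      _ ≤ _ := mul_le_mul_of_nonneg_left h2 hlzp.le
  have hup : ∀ U : ℝ, 1 ≤ U → U ≤ Y →
      ∑ a ∈ RS z U, 1 / (a.totient : ℝ) ≤ CU * max 1 (Real.log U / Real.log z) :=
    fun U hU _ => hGU' z U hz2 hU
  obtain ⟨g, hg1, hg01, hgY, hZ0, hcon, hbig⟩ := hK' z Y hz2 hY1
    (by rw [hlz, hlY]; nlinarith) hlow hup
  set Z1 : ℝ := ∑ a ∈ RS z Y, g a ^ 2 / (a.totient : ℝ) with hZ1
  set m : ℝ := ∑ a ∈ RS z Y, g a / (a.totient : ℝ) with hm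
  obtain ⟨hPB1, hPB2⟩ := hPB K z Y g hK hY1 (fun a => (hg01 a).1) hgY hcon
  obtain ⟨hQ1, hQ2⟩ := hQY K z Y (yg Y g)
  have hyg01 : ∀ r : Fin K → ℕ, |yg Y g r| ≤ 1 := by
    intro r
    unfold yg
    split_ifs
    · rw [Finset.abs_prod]
      refine Finset.prod_le_one (fun i _ => abs_nonneg _) fun i _ => ?_
      rw [abs_of_nonneg (hg01 _).1]
      exact (hg01 _).2
    · simp
  have hygs : ∀ r : Fin K → ℕ, yg Y g r ≠ 0 → ((∏ i, r i : ℕ) : ℝ) ≤ Y := by
    intro r hr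
    by_contra hne
    apply hr
    unfold yg
    rw [if_neg hne]
  refine ⟨lw z Y (yg Y g), hLB' X Y (yg Y g) hX2 hYX hyg01 hygs, ?_, ?_⟩
  · rw [hQ1]
    have h1mem : (fun _ : Fin K => 1) ∈ Bx K z Y := by
      simp only [Bx, Fintype.mem_piFinset]
      intro _
      simp only [RS, Finset.mem_filter, Finset.mem_Icc]
      refine ⟨⟨le_refl _, Nat.le_floor (by simpa using hY1.le)⟩, squarefree_one, ?_⟩
      intro p hp hp1
      exact absurd (Nat.dvd_one.1 hp1) hp.one_lt.ne'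
    have h2 : yg Y g (fun _ : Fin K => 1) ^ 2 / ∏ _i : Fin K, (((1 : ℕ).totient : ℕ) : ℝ) = 1 := by
      unfold yg
      rw [if_pos (by simpa using hY1.le)]
      simp [hg1]
    calc (1 : ℝ) = yg Y g (fun _ : Fin K => 1) ^ 2 / ∏ _i : Fin K, (((1 : ℕ).totient : ℕ) : ℝ) :=
          h2.symm
      _ ≤ ∑ r ∈ Bx K z Y, yg Y g r ^ 2 / ∏ i, ((r i).totient : ℝ) :=
          Finset.single_le_sum (f := fun r : Fin K → ℕ => yg Y g r ^ 2 / ∏ i, ((r i).totient : ℝ))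
            (fun r _ => div_nonneg (sq_nonneg _)
              (Finset.prod_nonneg fun i _ => Nat.cast_nonneg _)) h1mem
  · have h3 : QF z Y (lw z Y (yg Y g) : (Fin K → ℕ) → ℝ) ≤ Z1 ^ K := by
      rw [hQ1]
      exact hPB1
    have h4 : ∑ _i : Fin K, 1 / 2 * m ^ 2 * Z1 ^ (K - 1) ≤
        ∑ i : Fin K, QF z Y (res i (lw z Y (yg Y g))) := by
      refine Finset.sum_le_sum fun i _ => ?_
      rw [hQ2 i]
      exact hPB2 i
    rw [Finset.sum_const, Finset.card_univ, Fintype.card_fin, nsmul_eq_mul] at h4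
    refine le_trans ?_ h4
    have h5 : M / δ * Z1 ≤ 1 / 2 * (K * m ^ 2) := by
      rw [hratio] at hbig
      have h6 : 2 * M / ϑ * (ϑ / δ) = 2 * (M / δ) := by
        field_simp
      rw [h6] at hbig
      linarith
    have h7 : 0 ≤ Z1 ^ (K - 1) := by positivity
    have h8 : Z1 ^ K = Z1 * Z1 ^ (K - 1) := by
      rw [← pow_succ']
      congr 1
      omega
    calc M / δ * QF z Y (lw z Y (yg Y g) : (Fin K → ℕ) → ℝ) ≤ M / δ * Z1 ^ K :=
          mul_le_mul_of_nonneg_left h3 (by positivity)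
      _ = (M / δ * Z1) * Z1 ^ (K - 1) := by rw [h8]; ring
      _ ≤ (1 / 2 * (K * m ^ 2)) * Z1 ^ (K - 1) := mul_le_mul_of_nonneg_right h5 h7
      _ = K * (1 / 2 * m ^ 2 * Z1 ^ (K - 1)) := by ring

end Pool.Agent.H57.MTP
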