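import Pool.Agent.H31.MP.Basic

/-!
# MP_76b9e7_nt, board mtp_modules, row TE: tensor products of weights
-/

set_option autoImplicit false

open Finset Real ArithmeticFunction
open scoped Nat

namespace Pool.Agent.H57.MTP

open Pool.Agent.H31.MP

theorem sum_Bx_succ (K : ℕ) (z W : ℝ) (f : (Fin (K + 1) → ℕ) → ℝ) :
    ∑ d ∈ Bx (K + 1) z W, f d = ∑ u ∈ RS z W, ∑ d ∈ Bx K z W, f (Fin.cons u d) := by
  rw [← Finset.sum_product']
  refine Finset.sum_nbij' (fun d => (d 0, Fin.tail d)) (fun q => Fin.cons q.1 q.2) ?_ ?_ ?_ ?_ ?_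
  · intro d hd
    simp only [Bx, Fintype.mem_piFinset] at hd
    simp only [Bx, Finset.mem_product, Fintype.mem_piFinset]
    exact ⟨hd 0, fun i => hd i.succ⟩
  · intro q hq
    simp only [Bx, Finset.mem_product, Fintype.mem_piFinset] at hq
    simp only [Bx, Fintype.mem_piFinset]
    intro i
    refine Fin.cases ?_ (fun j => ?_) i
    · simpa using hq.1
    · simpa using hq.2 j
  · intro d _
    exact Fin.cons_self_tail d
  · intro q _
    simp
  · intro d _
    simp only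
    rw [Fin.cons_self_tail]

theorem RS_mono {z Y W : ℝ} (h : Y ≤ W) : RS z Y ⊆ RS z W := by
  intro a ha
  simp only [RS, Finset.mem_filter, Finset.mem_Icc] at ha ⊢
  exact ⟨⟨ha.1.1, ha.1.2.trans (Nat.floor_le_floor h)⟩, ha.2⟩

theorem Bx_mono {K : ℕ} {z Y W : ℝ} (h : Y ≤ W) : Bx K z Y ⊆ Bx K z W :=
  Fintype.piFinset_subset _ _ fun _ => RS_mono h

theorem RS_le {z Y : ℝ} (hY : 0 ≤ Y) {a : ℕ} (ha : a ∈ RS z Y) : (a : ℝ) ≤ Y := by
  simp only [RS, Finset.mem_filter, Finset.mem_Icc] at ha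
  exact (Nat.cast_le.2 ha.1.2).trans (Nat.floor_le hY)

theorem pf_TE : T_TE := by
  classical
  intro K z Y D C ρ l hY hD hρ1 hρs hC hl
  have hYW : Y ≤ D * Y := by nlinarith
  have hDW : D ≤ D * Y := by nlinarith
  -- restricting the sums
  have hsu : ∀ g : ℕ → ℝ, (∀ u, ρ u = 0 → g u = 0) →
      ∑ u ∈ RS z (D * Y), g u = ∑ u ∈ RS z D, g u := by
    intro g hg
    refine (Finset.sum_subset (RS_mono hDW) ?_).symm
    intro u _ hu
    by_contra hne
    exact hu (hρs u fun h0 => hne (hg u h0))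
  have hsd : ∀ g : (Fin K → ℕ) → ℝ, (∀ d, l d = 0 → g d = 0) →
      ∑ d ∈ Bx K z (D * Y), g d = ∑ d ∈ Bx K z Y, g d := by
    intro g hg
    refine (Finset.sum_subset (Bx_mono hYW) ?_).symm
    intro d _ hd
    by_contra hne
    exact hd (hl.supp d fun h0 => hne (hg d h0)).1
  have hten : ∀ (u : ℕ) (d : Fin K → ℕ), ten ρ l (Fin.cons u d) = ρ u * l d := by
    intro u d
    simp [ten]
  refine ⟨⟨?_, ?_⟩, ?_, ?_⟩
  · intro d hd
    have h1 : ρ (d 0) ≠ 0 := left_ne_zero_of_mul hd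
    have h2 : l (fun i => d i.succ) ≠ 0 := right_ne_zero_of_mul hd
    have h3 := hρs _ h1
    obtain ⟨h4, h5⟩ := hl.supp _ h2
    refine ⟨?_, ?_⟩
    · simp only [Bx, Fintype.mem_piFinset] at h4 ⊢
      intro i
      refine Fin.cases ?_ (fun j => ?_) i
      · exact RS_mono hDW h3
      · exact RS_mono hYW (h4 j)
    · rw [Fin.prod_univ_succ, Nat.cast_mul]
      have h6 : ((d 0 : ℕ) : ℝ) ≤ D := RS_le (by linarith) h3
      have h7 : (0 : ℝ) ≤ ((∏ i : Fin K, d i.succ : ℕ) : ℝ) := Nat.cast_nonneg _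
      exact mul_le_mul h6 h5 h7 (by linarith)
  · intro d
    simp only [ten, abs_mul]
    calc |ρ (d 0)| * |l fun i => d i.succ| ≤ 1 * C :=
          mul_le_mul (hρ1 _) (hl.bd _) (abs_nonneg _) (by norm_num)
      _ = C := one_mul C
  · unfold QF QF1
    rw [sum_Bx_succ]
    have h1 : ∀ (u : ℕ) (d : Fin K → ℕ),
        ∑ e ∈ Bx (K + 1) z (D * Y), ten ρ l (Fin.cons u d) * ten ρ l e /
          ∏ i, (Nat.lcm ((Fin.cons u d : Fin (K + 1) → ℕ) i) (e i) : ℝ) =
        (∑ v ∈ RS z D, ρ u * ρ v / (Nat.lcm u v : ℝ)) *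
          ∑ e ∈ Bx K z Y, l d * l e / ∏ i, (Nat.lcm (d i) (e i) : ℝ) := by
      intro u d
      rw [sum_Bx_succ, hsu]
      · rw [Finset.sum_mul]
        refine Finset.sum_congr rfl fun v _ => ?_
        rw [hsd]
        · rw [Finset.mul_sum]
          refine Finset.sum_congr rfl fun e _ => ?_
          rw [hten, hten, Fin.prod_univ_succ]
          simp only [Fin.cons_zero, Fin.cons_succ]
          rw [div_mul_div_comm]
          congr 1
          ring
        · intro e he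
          rw [hten v e, he]
          simp
      · intro v hv
        refine Finset.sum_eq_zero fun e _ => ?_
        rw [hten v e, hv]
        simp
    simp only [h1]
    have h2 : ∀ u, ∑ d ∈ Bx K z (D * Y), (∑ v ∈ RS z D, ρ u * ρ v / (Nat.lcm u v : ℝ)) *
        ∑ e ∈ Bx K z Y, l d * l e / ∏ i, (Nat.lcm (d i) (e i) : ℝ) =
        (∑ v ∈ RS z D, ρ u * ρ v / (Nat.lcm u v : ℝ)) * ∑ d ∈ Bx K z Y,
          ∑ e ∈ Bx K z Y, l d * l e / ∏ i, (Nat.lcm (d i) (e i) : ℝ) := by
      intro u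
      rw [hsd, Finset.mul_sum]
      intro d hd
      have : ∑ e ∈ Bx K z Y, l d * l e / ∏ i, (Nat.lcm (d i) (e i) : ℝ) = 0 :=
        Finset.sum_eq_zero fun e _ => by rw [hd]; simp
      rw [this, mul_zero]
    simp only [h2]
    rw [hsu, Finset.sum_mul]
    intro u hu
    have : ∑ v ∈ RS z D, ρ u * ρ v / (Nat.lcm u v : ℝ) = 0 :=
      Finset.sum_eq_zero fun v _ => by rw [hu]; simp
    rw [this, zero_mul]
  · intro h e n
    unfold Lam Lam1
    rw [sum_Bx_succ]
    have h1 : ∀ (u : ℕ) (d : Fin K → ℕ),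
        (if ∀ i : Fin (K + 1), (Fin.cons u d : Fin (K + 1) → ℕ) i ∣
            n + (Fin.cons e h : Fin (K + 1) → ℕ) i then ten ρ l (Fin.cons u d) else 0) =
        (if u ∣ n + e then ρ u else 0) * (if ∀ i, d i ∣ n + h i then l d else 0) := by
      intro u d
      rw [hten]
      have hiff : (∀ i : Fin (K + 1), (Fin.cons u d : Fin (K + 1) → ℕ) i ∣
            n + (Fin.cons e h : Fin (K + 1) → ℕ) i) ↔ (u ∣ n + e ∧ ∀ i, d i ∣ n + h i) := by
        rw [Fin.forall_fin_succ]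
        simp
      by_cases hA : u ∣ n + e
      · by_cases hB : ∀ i, d i ∣ n + h i
        · rw [if_pos (hiff.2 ⟨hA, hB⟩), if_pos hA, if_pos hB]
        · rw [if_neg (fun hh => hB (hiff.1 hh).2), if_neg hB, mul_zero]
      · rw [if_neg (fun hh => hA (hiff.1 hh).1), if_neg hA, zero_mul]
    simp only [h1]
    rw [hsu]
    · rw [Finset.sum_mul]
      refine Finset.sum_congr rfl fun u _ => ?_
      rw [hsd, ← Finset.mul_sum]
      intro d hd
      rw [hd]
      simp
    · intro u hu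
      refine Finset.sum_eq_zero fun d _ => ?_
      rw [hu]
      simp

end Pool.Agent.H57.MTP
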