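import Pool.Agent.H31.MP.Basic

/-!
# MP_76b9e7_nt, board mtp_modules, row VR: the density with the new point
-/

set_option autoImplicit false

open Finset Real ArithmeticFunction
open scoped Nat

namespace Pool.Agent.H57.MTP

open Pool.Agent.H31.MP

theorem nu_le {K : ℕ} (h : Fin K → ℕ) (p : ℕ) : nu h p ≤ K := by
  classical
  rcases Nat.eq_zero_or_pos K with rfl | hK
  · simp [nu]
  have : NeZero K := ⟨hK.ne'⟩
  unfold nu
  have hcard : (Finset.univ : Finset (Fin K)).card = K := by simp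
  calc _ ≤ (Finset.univ : Finset (Fin K)).card := by
        refine Finset.card_le_card_of_injOn
          (fun a => if ha : ∃ i, p ∣ a + h i then ha.choose else 0) (fun _ _ => by simp) ?_
        intro a ha b hb hab
        simp only [Finset.coe_filter, Finset.mem_range, Set.mem_ofPred_eq] at ha hb
        simp only [ha.2, hb.2, dif_pos] at hab
        have h1 := ha.2.choose_spec
        have h2 := hb.2.choose_spec
        rw [hab] at h1
        set c := h hb.2.choose with hc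
        have h3 : a + c ≡ b + c [MOD p] := by
          rw [Nat.ModEq, Nat.mod_eq_zero_of_dvd h1, Nat.mod_eq_zero_of_dvd h2]
        have h4 : a ≡ b [MOD p] := Nat.ModEq.add_right_cancel' c h3
        rwa [Nat.ModEq, Nat.mod_eq_of_lt ha.1, Nat.mod_eq_of_lt hb.1] at h4
    _ = K := hcard

theorem exists_res {p : ℕ} (hp : 0 < p) (e : ℕ) : ∃ a, a < p ∧ p ∣ a + e := by
  have : NeZero p := ⟨hp.ne'⟩
  refine ⟨(-(e : ZMod p)).val, ZMod.val_lt _, ?_⟩
  rw [← ZMod.natCast_eq_zero_iff]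
  push_cast
  rw [ZMod.natCast_zmod_val]
  ring

theorem nu_cons_ge {K : ℕ} (h : Fin K → ℕ) (e p : ℕ) :
    nu h p ≤ nu (Fin.cons e h : Fin (K + 1) → ℕ) p := by
  classical
  unfold nu
  refine Finset.card_le_card ?_
  intro a ha
  simp only [Finset.mem_filter] at ha ⊢
  obtain ⟨h1, i, hi⟩ := ha
  exact ⟨h1, i.succ, by simpa using hi⟩

theorem nu_cons_succ {K : ℕ} (h : Fin K → ℕ) (e p : ℕ) (hp : 0 < p)
    (hne : ∀ i, ¬ (p : ℤ) ∣ (e : ℤ) - h i) :
    nu h p + 1 ≤ nu (Fin.cons e h : Fin (K + 1) → ℕ) p := by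
  classical
  obtain ⟨a₀, ha₀, hd₀⟩ := exists_res hp e
  unfold nu
  have hnot : a₀ ∉ (range p).filter fun a => ∃ i, p ∣ a + h i := by
    simp only [Finset.mem_filter, not_and, not_exists]
    intro _ i hi
    refine hne i ?_
    have h1 : (p : ℤ) ∣ ((a₀ + e : ℕ) : ℤ) := Int.natCast_dvd_natCast.2 hd₀
    have h2 : (p : ℤ) ∣ ((a₀ + h i : ℕ) : ℤ) := Int.natCast_dvd_natCast.2 hi
    have h3 := Int.dvd_sub h1 h2
    push_cast at h3
    have h4 : ((a₀ : ℤ) + e) - (a₀ + h i) = (e : ℤ) - h i := by ring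
    rwa [h4] at h3
  rw [← Finset.card_insert_of_notMem hnot]
  refine Finset.card_le_card ?_
  intro a ha
  simp only [Finset.mem_insert, Finset.mem_filter, Finset.mem_range] at ha ⊢
  rcases ha with rfl | ⟨h1, i, hi⟩
  · exact ⟨ha₀, 0, by simpa using hd₀⟩
  · exact ⟨h1, i.succ, by simpa using hi⟩

theorem prod_le_of_subset {s t : Finset ℕ} {f : ℕ → ℝ} (hst : s ⊆ t) (hf : ∀ i ∈ t, 1 ≤ f i) :
    ∏ i ∈ s, f i ≤ ∏ i ∈ t, f i := by
  rw [← Finset.prod_sdiff hst]
  have h1 : 1 ≤ ∏ i ∈ t \ s, f i := by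
    have : ∏ i ∈ t \ s, (1 : ℝ) ≤ ∏ i ∈ t \ s, f i :=
      Finset.prod_le_prod (fun _ _ => zero_le_one) fun i hi => hf i (Finset.mem_sdiff.1 hi).1
    simpa using this
  have h2 : 0 ≤ ∏ i ∈ s, f i :=
    Finset.prod_nonneg fun i hi => zero_le_one.trans (hf i (hst hi))
  nlinarith

theorem pf_VR : T_VR := by
  classical
  intro K y₀ z h e hK hy hne
  have hP : ∀ p ∈ Pz y₀ z, p.Prime ∧ y₀ < p := by
    intro p hp
    simp only [Pz, Finset.mem_filter] at hp
    exact hp.2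
  -- the factors
  have hfac : ∀ (p : ℕ), y₀ < p → ∀ v : ℕ,
      1 - ((v : ℝ) - 1) / ((p : ℝ) - 1) = ((p : ℝ) - v) / ((p : ℝ) - 1) := by
    intro p hp v
    have : (1 : ℝ) < p := by
      have : 1 < p := by omega
      exact_mod_cast this
    have h2 : (p : ℝ) - 1 ≠ 0 := by linarith
    field_simp
    ring
  have hcons0 : ∀ p ∈ Pz y₀ z,
      0 ≤ 1 - ((nu (Fin.cons e h : Fin (K + 1) → ℕ) p : ℝ) - 1) / ((p : ℝ) - 1) := by
    intro p hp
    obtain ⟨_, h2⟩ := hP p hp
    rw [hfac p h2]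
    have h3 : nu (Fin.cons e h : Fin (K + 1) → ℕ) p ≤ K + 1 := nu_le _ _
    have h4 : ((nu (Fin.cons e h : Fin (K + 1) → ℕ) p : ℕ) : ℝ) ≤ p := by
      have : nu (Fin.cons e h : Fin (K + 1) → ℕ) p ≤ p := by omega
      exact_mod_cast this
    have h5 : (1 : ℝ) < p := by
      have : 1 < p := by omega
      exact_mod_cast this
    exact div_nonneg (by linarith) (by linarith)
  have hpos : ∀ p ∈ Pz y₀ z, 0 < 1 - ((nu h p : ℝ) - 1) / ((p : ℝ) - 1) := by
    intro p hp
    obtain ⟨_, h2⟩ := hP p hp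
    rw [hfac p h2]
    have h3 : nu h p ≤ K := nu_le _ _
    have h4 : ((nu h p : ℕ) : ℝ) < p := by
      have : nu h p < p := by omega
      exact_mod_cast this
    have h5 : (1 : ℝ) < p := by
      have : 1 < p := by omega
      exact_mod_cast this
    exact div_pos (by linarith) (by linarith)
  refine ⟨Finset.prod_nonneg hcons0, Finset.prod_pos hpos, ?_⟩
  set M : ℕ := ∏ i, ((e : ℤ) - h i).natAbs with hM
  have hM0 : M ≠ 0 := by
    rw [hM]
    refine Finset.prod_ne_zero_iff.2 fun i _ => ?_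
    rw [Int.natAbs_ne_zero, sub_ne_zero]
    exact_mod_cast hne i
  set c : ℕ → ℝ := fun p => if p ∣ M then (1 - 1 / (p : ℝ))⁻¹ else 1 with hc
  have hinv : ∀ p : ℕ, 1 < p → 0 < 1 - 1 / (p : ℝ) ∧ 1 ≤ (1 - 1 / (p : ℝ))⁻¹ := by
    intro p hp
    have h5 : (1 : ℝ) < p := by exact_mod_cast hp
    have h6 : 1 / (p : ℝ) < 1 := by
      rw [div_lt_one (by linarith)]
      exact h5
    have h7 : 0 < 1 / (p : ℝ) := by positivity
    refine ⟨by linarith, ?_⟩
    rw [one_le_inv₀ (by linarith)]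
    linarith
  have hstep : V2 y₀ z (Fin.cons e h : Fin (K + 1) → ℕ) ≤
      ∏ p ∈ Pz y₀ z, ((1 - ((nu h p : ℝ) - 1) / ((p : ℝ) - 1)) * (1 - 1 / (p : ℝ)) * c p) := by
    unfold V2
    refine Finset.prod_le_prod hcons0 ?_
    intro p hp
    obtain ⟨h1, h2⟩ := hP p hp
    have h5 : (1 : ℝ) < p := by
      have : 1 < p := by omega
      exact_mod_cast this
    have hi := hinv p (by omega)
    by_cases hd : p ∣ M
    · simp only [hc, if_pos hd]
      rw [mul_assoc, mul_inv_cancel₀ hi.1.ne', mul_one, hfac p h2, hfac p h2]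
      have h3 : ((nu h p : ℕ) : ℝ) ≤ nu (Fin.cons e h : Fin (K + 1) → ℕ) p := by
        exact_mod_cast nu_cons_ge h e p
      exact div_le_div_of_nonneg_right (by linarith) (by linarith)
    · simp only [hc, if_neg hd, mul_one]
      have hnd : ∀ i, ¬ (p : ℤ) ∣ (e : ℤ) - h i := by
        intro i hi'
        apply hd
        rw [hM]
        refine dvd_trans ?_ (Finset.dvd_prod_of_mem _ (Finset.mem_univ i))
        exact Int.natCast_dvd.1 hi'
      have h3 : ((nu h p : ℕ) : ℝ) + 1 ≤ nu (Fin.cons e h : Fin (K + 1) → ℕ) p := by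
        exact_mod_cast nu_cons_succ h e p (by omega) hnd
      rw [hfac p h2, hfac p h2]
      have h6 : ((p : ℝ) - nu h p) / ((p : ℝ) - 1) * (1 - 1 / (p : ℝ)) =
          (((p : ℝ) - nu h p) * (1 - 1 / (p : ℝ))) / ((p : ℝ) - 1) := by ring
      rw [h6]
      refine div_le_div_of_nonneg_right ?_ (by linarith)
      have h7 : ((p : ℝ) - nu h p) * (1 - 1 / (p : ℝ)) =
          (p : ℝ) - nu h p - 1 + nu h p / p := by
        field_simp
        ring
      rw [h7]
      have h8 : (0 : ℝ) ≤ (nu h p : ℝ) / p := by positivity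
      linarith
  refine hstep.trans ?_
  rw [Finset.prod_mul_distrib, Finset.prod_mul_distrib]
  have hnn : 0 ≤ (∏ p ∈ Pz y₀ z, (1 - ((nu h p : ℝ) - 1) / ((p : ℝ) - 1))) *
      ∏ p ∈ Pz y₀ z, (1 - 1 / (p : ℝ)) := by
    refine mul_nonneg (Finset.prod_nonneg fun p hp => (hpos p hp).le)
      (Finset.prod_nonneg fun p hp => (hinv p ?_).1.le)
    have := (hP p hp).2
    omega
  refine mul_le_mul_of_nonneg_left ?_ hnn
  -- the correction factors
  have h1 : ∏ p ∈ Pz y₀ z, c p = ∏ p ∈ (Pz y₀ z).filter (fun p => p ∣ M), (1 - 1 / (p : ℝ))⁻¹ := by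
    rw [Finset.prod_filter]
  rw [h1]
  unfold Rp
  refine prod_le_of_subset ?_ ?_
  · intro p hp
    simp only [Finset.mem_filter] at hp ⊢
    obtain ⟨h2, h3⟩ := hP p hp.1
    exact ⟨Nat.mem_primeFactors.2 ⟨h2, hp.2, hM0⟩, h3⟩
  · intro p hp
    simp only [Finset.mem_filter] at hp
    exact (hinv p (by have := hp.2; omega)).2

end Pool.Agent.H57.MTP
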