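import Pool.Agent.H31.MP.Basic

/-!
# MP_76b9e7_nt, board mtp_modules, row VV: identities for the densities
-/

set_option autoImplicit false

open Finset Real ArithmeticFunction
open scoped Nat

namespace Pool.Agent.H57.MTP

open Pool.Agent.H31.MP

theorem totient_primorial_div (y : ℕ) :
    ((primorial y).totient : ℝ) / primorial y =
      ∏ p ∈ (Icc 1 y).filter Nat.Prime, (1 - 1 / (p : ℝ)) := by
  classical
  have h1 : (primorial y).primeFactors = (Icc 1 y).filter Nat.Prime := by
    have h2 : primorial y = ∏ p ∈ (Icc 1 y).filter Nat.Prime, p := by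
      unfold primorial
      refine Finset.prod_congr ?_ fun _ _ => rfl
      ext p
      simp only [Finset.mem_filter, Finset.mem_range, Finset.mem_Icc]
      constructor
      · rintro ⟨h3, h4⟩
        exact ⟨⟨h4.one_lt.le, by omega⟩, h4⟩
      · rintro ⟨h3, h4⟩
        exact ⟨by omega, h4⟩
    rw [h2]
    exact Nat.primeFactors_prod fun p hp => (Finset.mem_filter.1 hp).2
  have h3 : ((primorial y).totient : ℚ) = primorial y * ∏ p ∈ (primorial y).primeFactors,
      (1 - (p : ℚ)⁻¹) := Nat.totient_eq_mul_prod_factors _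
  rw [h1] at h3
  have h4 : ((primorial y).totient : ℝ) = primorial y * ∏ p ∈ (Icc 1 y).filter Nat.Prime,
      (1 - (p : ℝ)⁻¹) := by
    have := congrArg (fun q : ℚ => (q : ℝ)) h3
    push_cast at this
    exact this
  have h5 : (primorial y : ℝ) ≠ 0 := by
    have := primorial_pos y
    exact_mod_cast this.ne'
  rw [h4, mul_div_assoc, mul_comm, div_mul_cancel₀ _ h5]
  refine Finset.prod_congr rfl fun p _ => ?_
  rw [one_div]

theorem pf_VV : T_VV := by
  classical
  intro K y₀ z h _ hy hz
  have hfl : y₀ ≤ ⌊z⌋₊ := Nat.le_floor hz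
  have hA : (∏ p ∈ Pz y₀ z, (1 - 1 / (p : ℝ))) *
      (((primorial y₀).totient : ℝ) / primorial y₀) = Me z := by
    rw [totient_primorial_div]
    unfold Me
    have hset : (Icc 1 ⌊z⌋₊).filter Nat.Prime = Pz y₀ z ∪ (Icc 1 y₀).filter Nat.Prime := by
      ext p
      simp only [Pz, Finset.mem_filter, Finset.mem_union, Finset.mem_Icc]
      constructor
      · rintro ⟨h1, h2⟩
        by_cases h3 : y₀ < p
        · exact Or.inl ⟨h1, h2, h3⟩
        · exact Or.inr ⟨⟨h1.1, by omega⟩, h2⟩
      · rintro (⟨h1, h2, _⟩ | ⟨h1, h2⟩)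
        · exact ⟨h1, h2⟩
        · exact ⟨⟨h1.1, h1.2.trans hfl⟩, h2⟩
    have hdis : Disjoint (Pz y₀ z) ((Icc 1 y₀).filter Nat.Prime) := by
      rw [Finset.disjoint_left]
      intro p hp hq
      simp only [Pz, Finset.mem_filter, Finset.mem_Icc] at hp hq
      omega
    rw [hset, Finset.prod_union hdis]
  refine ⟨hA, ?_⟩
  rw [← hA, ← mul_assoc]
  congr 1
  unfold V2 V1
  rw [← Finset.prod_mul_distrib]
  refine Finset.prod_congr rfl fun p hp => ?_
  simp only [Pz, Finset.mem_filter] at hp
  have h5 : (1 : ℝ) < p := by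
    have : 1 < p := by omega
    exact_mod_cast this
  have h6 : (p : ℝ) - 1 ≠ 0 := by linarith
  have h7 : (p : ℝ) ≠ 0 := by linarith
  field_simp
  ring

end Pool.Agent.H57.MTP
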