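import Pool.Agent.H31.MP.Basic

/-!
# MP_76b9e7_nt, board mtp_modules, row X3: two primes, the sum over the second one
-/

set_option autoImplicit false

open Finset Real ArithmeticFunction
open scoped Nat

namespace Pool.Agent.H57.MTP

open Pool.Agent.H31.MP
open Pool.Agent.H30.BV (NX wx WX)

theorem hat_nonneg' (x : ℝ) : 0 ≤ Pool.Agent.H27.LS.hat x := by
  unfold Pool.Agent.H27.LS.hat
  exact le_max_left _ _ |>.trans (le_of_eq (by rfl))

theorem WX_nonneg' (X : ℝ) : 0 ≤ WX X := by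
  unfold WX wx
  exact Finset.sum_nonneg fun n _ => mul_nonneg vonMangoldt_nonneg (hat_nonneg' _)

theorem V2_pos' {K : ℕ} (y₀ : ℕ) (z : ℝ) (h : Fin K → ℕ) (hK : 2 * K + 2 ≤ y₀) :
    0 < V2 y₀ z h := by
  classical
  unfold V2
  refine Finset.prod_pos fun p hp => ?_
  simp only [Pz, Finset.mem_filter] at hp
  have hnu : nu h p ≤ K := by
    rcases Nat.eq_zero_or_pos K with rfl | hK0
    · simp [nu]
    have : NeZero K := ⟨hK0.ne'⟩
    unfold nu
    have hcard : (Finset.univ : Finset (Fin K)).card = K := by simp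
    calc _ ≤ (Finset.univ : Finset (Fin K)).card := by
          refine Finset.card_le_card_of_injOn
            (fun a => if ha : ∃ i, p ∣ a + h i then ha.choose else 0) (fun _ _ => by simp) ?_
          intro a ha b hb hab
          simp only [Finset.coe_filter, Finset.mem_range, Set.mem_ofPred_eq] at ha hb
          simp only [ha.2, hb.2, dif_pos] at hab
          have h1 := ha.2.choose_spec
          have h2 := hb.2.choose_spec
          rw [hab] at h1
          have h3 : a + h hb.2.choose ≡ b + h hb.2.choose [MOD p] := by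
            rw [Nat.ModEq, Nat.mod_eq_zero_of_dvd h1, Nat.mod_eq_zero_of_dvd h2]
          have h4 : a ≡ b [MOD p] := Nat.ModEq.add_right_cancel' _ h3
          rwa [Nat.ModEq, Nat.mod_eq_of_lt ha.1, Nat.mod_eq_of_lt hb.1] at h4
      _ = K := hcard
  have h4 : ((nu h p : ℕ) : ℝ) < p := by
    have : nu h p < p := by omega
    exact_mod_cast this
  have h5 : (1 : ℝ) < p := by
    have : 1 < p := by omega
    exact_mod_cast this
  have h6 : 1 - ((nu h p : ℝ) - 1) / ((p : ℝ) - 1) = ((p : ℝ) - nu h p) / ((p : ℝ) - 1) := by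
    have h2 : (p : ℝ) - 1 ≠ 0 := by linarith
    field_simp
    ring
  rw [h6]
  exact div_pos (by linarith) (by linarith)

theorem QF_nonneg' (hDG : T_DG) {K : ℕ} (z Y : ℝ) (l : (Fin K → ℕ) → ℝ) : 0 ≤ QF z Y l := by
  classical
  rw [hDG K z Y l]
  refine Finset.sum_nonneg fun r _ => mul_nonneg ?_ (sq_nonneg _)
  exact Finset.prod_nonneg fun i _ => Nat.cast_nonneg _

theorem MM_nonneg' (hDG : T_DG) {k : ℕ} (Z : ℝ) (y₀ : ℕ) (z Y : ℝ) (l : (Fin k → ℕ) → ℝ)
    (h : Fin k → ℕ) (i : Fin k) (hk : 2 * k + 2 ≤ y₀) (hZ : 0 ≤ Real.log Z) :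
    0 ≤ MM Z y₀ z Y l h i := by
  unfold MM
  refine mul_nonneg (mul_nonneg (div_nonneg (WX_nonneg' Z) ?_) (V2_pos' _ _ _ hk).le)
    (QF_nonneg' hDG _ _ _)
  exact mul_nonneg (Nat.cast_nonneg _) hZ

theorem pf_X3 (hW3 : T_W3) (hSA : T_SA) (hDG : T_DG) : T_X3 := by
  classical
  intro k κ hk hκ hκ8
  obtain ⟨b, hb⟩ := hW3 k κ κ hk hκ hκ hκ8
  obtain ⟨y₁, hy₁⟩ := hSA k κ hκ
  refine ⟨b, max (2 * k + 6) y₁, ?_⟩
  intro y₀ A δ C hy₀ hδ hδb hC t ht
  have hy₀k : 2 * k + 6 ≤ y₀ := (le_max_left _ _).trans hy₀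
  have hy₀1 : y₁ ≤ y₀ := (le_max_right _ _).trans hy₀
  obtain ⟨X₁, hX₁⟩ := hb y₀ (A + 2) δ C hy₀k hδ hδb hC
  obtain ⟨X₂, hX₂⟩ := hy₁ y₀ hy₀1 t ht
  refine ⟨max (max X₁ X₂) (Real.exp 10), ?_⟩
  intro Z hZ Y h i l a m hinj hh hdiv hY1 hY hW ha ham htm
  have hZ1 : X₁ ≤ Z := (le_max_left _ _).trans ((le_max_left _ _).trans hZ)
  have hZ2 : X₂ ≤ Z := (le_max_right _ _).trans ((le_max_left _ _).trans hZ)
  have hZ3 : Real.exp 10 ≤ Z := (le_max_right _ _).trans hZ
  have hZpos : 0 < Z := (Real.exp_pos _).trans_le hZ3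
  have hL : 10 ≤ Real.log Z := by
    rw [Real.le_log_iff_exp_le hZpos]
    exact hZ3
  set L := Real.log Z with hLdef
  have hLpos : 0 < L := by linarith
  have hMM : 0 ≤ MM Z y₀ (Z ^ δ) Y l h i :=
    MM_nonneg' hDG Z y₀ _ Y l h i (by omega) hLpos.le
  set P : ℝ := (primorial y₀ : ℝ) with hP
  set ph : ℝ := ((primorial y₀).totient : ℝ) with hph
  have hPpos : 0 < P := by
    rw [hP]
    exact Nat.cast_pos.2 (primorial_pos y₀)
  have hphpos : 0 < ph := by
    rw [hph]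
    exact Nat.cast_pos.2 (Nat.totient_pos.2 (primorial_pos y₀))
  set T : ℝ := (1 + κ) * (MM Z y₀ (Z ^ δ) Y l h i * (P / ph / ((1 / 4 - κ) * L))) with hT
  have hk4 : 0 < 1 / 4 - κ := by linarith
  have hT0 : 0 ≤ T := by
    rw [hT]
    refine mul_nonneg (by linarith) (mul_nonneg hMM ?_)
    positivity
  have hha : ∀ j, (h j : ℝ) < a := fun j => (hh j).trans_lt ha
  have hterm : ∀ e ∈ Ico a (a + m), S3 Z y₀ (Z ^ δ) Y l h i e ≤
      (if (1 + e).Coprime (primorial y₀) then T * Rp y₀ e h else 0) + Z / L ^ (A + 2) := by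
    intro e he
    rw [Finset.mem_Ico] at he
    have he1 : (a : ℝ) ≤ e := by exact_mod_cast he.1
    have he2 : (e : ℝ) ≤ ((a + m : ℕ) : ℝ) := by exact_mod_cast he.2.le
    have := hX₁ Z hZ1 Y h i l e hinj (fun j => (hh j).trans (by nlinarith)) hdiv hY1 hY hW
      (fun j hj => by
        have := hha j
        rw [← hj] at this
        linarith) (by linarith)
    refine this.trans (le_of_eq ?_)
    congr 1
    split_ifs
    · rw [hT]
      ring
    · rfl
  have hsum : ∑ e ∈ Ico a (a + m), S3 Z y₀ (Z ^ δ) Y l h i e ≤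
      T * (∑ e ∈ (Ico a (a + m)).filter (fun e => (1 + e).Coprime (primorial y₀)), Rp y₀ e h) +
        m * (Z / L ^ (A + 2)) := by
    refine (Finset.sum_le_sum hterm).trans (le_of_eq ?_)
    rw [Finset.sum_add_distrib, Finset.sum_const, Nat.card_Ico, nsmul_eq_mul, Finset.sum_filter,
      Finset.mul_sum]
    congr 1
    · refine Finset.sum_congr rfl fun e _ => ?_
      split_ifs
      · rfl
      · rw [mul_zero]
    · congr 2
      omega
  refine hsum.trans ?_
  have hSAe := hX₂ Z hZ2 h a m (fun j => (hh j).trans (by nlinarith)) (by linarith) htm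
  have hm0 : (0 : ℝ) ≤ m := Nat.cast_nonneg _
  have hmain : T * (∑ e ∈ (Ico a (a + m)).filter (fun e => (1 + e).Coprime (primorial y₀)),
      Rp y₀ e h) ≤ (4 + 80 * κ) * (m / L) * MM Z y₀ (Z ^ δ) Y l h i := by
    refine (mul_le_mul_of_nonneg_left hSAe hT0).trans ?_
    have h1 : T * ((1 + κ) * (ph / P) * m) =
        ((1 + κ) ^ 2 / (1 / 4 - κ)) * ((m / L) * MM Z y₀ (Z ^ δ) Y l h i) := by
      rw [hT]
      field_simp
    rw [h1]
    have h2 : (1 + κ) ^ 2 / (1 / 4 - κ) ≤ 4 + 80 * κ := by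
      rw [div_le_iff₀ hk4]
      nlinarith
    have h3 : 0 ≤ (m / L) * MM Z y₀ (Z ^ δ) Y l h i := mul_nonneg (by positivity) hMM
    calc _ ≤ (4 + 80 * κ) * ((m / L) * MM Z y₀ (Z ^ δ) Y l h i) :=
          mul_le_mul_of_nonneg_right h2 h3
      _ = _ := by ring
  have herr : m * (Z / L ^ (A + 2)) ≤ Z / L ^ A := by
    have h1 : (m : ℝ) ≤ 10 * L := by
      have : (m : ℝ) ≤ ((a + m : ℕ) : ℝ) := by
        push_cast
        have : (0 : ℝ) ≤ a := Nat.cast_nonneg _
        linarith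
      linarith
    have h2 : m * (Z / L ^ (A + 2)) = (m / L ^ 2) * (Z / L ^ A) := by
      rw [pow_add]
      field_simp
    rw [h2]
    have h3 : (m : ℝ) / L ^ 2 ≤ 1 := by
      rw [div_le_one (by positivity)]
      nlinarith
    have h4 : 0 ≤ Z / L ^ A := by positivity
    nlinarith
  linarith

end Pool.Agent.H57.MTP
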